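import Pool.Agent.Helper85_CYD.StG

/-! # CYD: modules FRO and TRF -/

set_option autoImplicit false

open Polynomial IsLocalRing

namespace Pool.Agent.CYD.H48

theorem fro : FroStmt := by
  intro L _ p _ _ f a
  have h1 : (red L f).map (frobenius L p) = red L f := by
    unfold red
    rw [Polynomial.map_map]
    congr 1
    exact RingHom.ext_int _ _
  have h2 := Polynomial.eq_rootMultiplicity_map (p := red L f) (frobenius_inj L p) a
  rw [h1, frobenius_def] at h2
  exact h2.symm

lemma rm_aux {k L L' : Type} [Field k] [Field L] [Field L'] [Algebra k L] [Algebra k L'] (π : k[X])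
    (hirr : Irreducible π) (hsep : π.Separable) (c : L) (c' : L') (hc : aeval c π = 0)
    (hc' : aeval c' π = 0) : ∀ (N : ℕ) (F : k[X]), F.natDegree ≤ N → F ≠ 0 →
    rootMultiplicity c (F.map (algebraMap k L)) = rootMultiplicity c' (F.map (algebraMap k L')) := by
  have hnd : ∀ {M : Type} [Field M] [Algebra k M] (d : M) (F : k[X]), aeval d π = 0 → ¬ π ∣ F →
      rootMultiplicity d (F.map (algebraMap k M)) = 0 := by
    intro M _ _ d F hd hF
    apply rootMultiplicity_eq_zero
    intro hroot
    have hco : IsCoprime π F := (Irreducible.coprime_iff_not_dvd hirr).2 hF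
    obtain ⟨u, v, huv⟩ := hco
    have h1 := congrArg (aeval d) huv
    rw [map_add, map_mul, map_mul, hd, mul_zero, zero_add, map_one] at h1
    have h2 : aeval d F = 0 := by
      rw [IsRoot.def, eval_map_algebraMap] at hroot
      exact hroot
    rw [h2, mul_zero] at h1
    exact zero_ne_one h1
  have hone : ∀ {M : Type} [Field M] [Algebra k M] (d : M), aeval d π = 0 →
      rootMultiplicity d (π.map (algebraMap k M)) = 1 := by
    intro M _ _ d hd
    have h0 : π.map (algebraMap k M) ≠ 0 := by
      rw [Polynomial.map_ne_zero_iff (algebraMap k M).injective]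
      exact hirr.ne_zero
    have h1 : rootMultiplicity d (π.map (algebraMap k M)) ≤ 1 :=
      rootMultiplicity_le_one_of_separable hsep.map d
    have h2 : 0 < rootMultiplicity d (π.map (algebraMap k M)) := by
      rw [rootMultiplicity_pos h0, IsRoot.def, eval_map_algebraMap]
      exact hd
    omega
  intro N
  induction N with
  | zero =>
    intro F hF hF0
    have hnd2 : ¬ π ∣ F := by
      intro h
      have h1 := natDegree_le_of_dvd h hF0
      have h2 := hirr.natDegree_pos
      omega
    rw [hnd c F hc hnd2, hnd c' F hc' hnd2]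
  | succ N ih =>
    intro F hF hF0
    by_cases h : π ∣ F
    · obtain ⟨F1, rfl⟩ := h
      have hF1 : F1 ≠ 0 := right_ne_zero_of_mul hF0
      have hdeg : F1.natDegree ≤ N := by
        rw [natDegree_mul hirr.ne_zero hF1] at hF
        have h2 := hirr.natDegree_pos
        omega
      have hne : ∀ {M : Type} [Field M] [Algebra k M],
          π.map (algebraMap k M) * F1.map (algebraMap k M) ≠ 0 := by
        intro M _ _
        rw [← Polynomial.map_mul, Polynomial.map_ne_zero_iff (algebraMap k M).injective]
        exact hF0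
      rw [Polynomial.map_mul, Polynomial.map_mul, rootMultiplicity_mul hne,
        rootMultiplicity_mul hne, hone c hc, hone c' hc', ih F1 hdeg hF1]
    · rw [hnd c F hc h, hnd c' F hc' h]

theorem trf : TrfStmt := by
  intro p m f hp hm hpm L L' _ _ _ _ a a' ha ha'
  have : Fact p.Prime := ⟨hp⟩
  let _ : Algebra (ZMod p) L := ZMod.algebra L p
  let _ : Algebra (ZMod p) L' := ZMod.algebra L' p
  set F : (ZMod p)[X] := f.map (Int.castRingHom (ZMod p)) with hF
  have hL : red L f = F.map (algebraMap (ZMod p) L) := by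
    rw [hF, Polynomial.map_map]; unfold red; congr 1; exact RingHom.ext_int _ _
  have hL' : red L' f = F.map (algebraMap (ZMod p) L') := by
    rw [hF, Polynomial.map_map]; unfold red; congr 1; exact RingHom.ext_int _ _
  have : NeZero (m : L) := ⟨by
    rw [Ne, CharP.cast_eq_zero_iff L p]; exact hpm⟩
  have : NeZero (m : L') := ⟨by
    rw [Ne, CharP.cast_eq_zero_iff L' p]; exact hpm⟩
  have : NeZero (m : ZMod p) := ⟨by
    rw [Ne, CharP.cast_eq_zero_iff (ZMod p) p]; exact hpm⟩
  -- the minimal polynomial
  have hint : IsIntegral (ZMod p) a' := (ha'.isIntegral (by omega)).tower_top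
  set π := minpoly (ZMod p) a' with hπ
  have hirr : Irreducible π := minpoly.irreducible hint
  have hdvd : π ∣ cyclotomic m (ZMod p) := by
    apply minpoly.dvd
    rw [aeval_def, eval₂_eq_eval_map, map_cyclotomic]
    exact (isRoot_cyclotomic_iff.2 ha')
  have hsep : π.Separable := (separable_cyclotomic m (ZMod p)).of_dvd hdvd
  -- a root in `L`
  have hsplit : ((cyclotomic m (ZMod p)).map (algebraMap (ZMod p) L)).Splits := by
    rw [map_cyclotomic]
    exact (X_pow_sub_one_splits ha).of_dvd (X_pow_sub_C_ne_zero (by omega) 1)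
      (cyclotomic.dvd_X_pow_sub_one m L)
  obtain ⟨c, hc⟩ : ∃ c : L, aeval c π = 0 := by
    have h1 : (π.map (algebraMap (ZMod p) L)).Splits :=
      hsplit.of_dvd (by
        rw [map_cyclotomic]; exact cyclotomic_ne_zero m L) (Polynomial.map_dvd _ hdvd)
    have h2 : (π.map (algebraMap (ZMod p) L)).degree ≠ 0 := by
      rw [degree_map]
      exact (degree_pos_of_irreducible hirr).ne'
    obtain ⟨c, hc⟩ := h1.exists_eval_eq_zero h2
    exact ⟨c, by rwa [eval_map_algebraMap] at hc⟩
  have hcp : IsPrimitiveRoot c m := by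
    rw [← isRoot_cyclotomic_iff, IsRoot.def, ← map_cyclotomic m (algebraMap (ZMod p) L),
      eval_map_algebraMap]
    obtain ⟨v, hv⟩ := hdvd
    rw [hv, map_mul, hc, zero_mul]
  have : NeZero m := ⟨by omega⟩
  obtain ⟨b, -, hb, hb2⟩ := ha.isPrimitiveRoot_iff.1 hcp
  refine ⟨b, hb, ?_⟩
  rw [hb2]
  by_cases hF0 : F = 0
  · rw [hL, hL', hF0]; simp
  · rw [hL, hL']
    exact rm_aux π hirr hsep a' c (minpoly.aeval _ _) hc F.natDegree F le_rfl hF0

end Pool.Agent.CYD.H48
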